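import Pool.Agent.Q280.ML.SEC

/-!
# The canonical pair of a lattice for split semi-elliptic logarithms

`L` is a pair of periods `ω₁, ω₂` (independent over `ℝ`), `L.lattice = ℤ ω₁ + ℤ ω₂ = Ω`, and `℘[L]` is Mathlib's
Weierstrass function. The definitions of `ζ` (the Weierstrass zeta function), `k L` (the field `ℚ ⊗ End(ℂ / Ω)`) and
`trd` (transcendence degree of the field generated by a set) are in `Pool.Agent.Y776.EtDefs`.

The theorem: for every lattice there is a smallest pair `(Λ, P)` consisting of a `ℚ`-space `Λ` of logarithms of algebraic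
numbers and a `k`-space `P` spanned by points `p ∉ Ω` with `℘(p)` or `ζ(p)` algebraic, or contained in such a space, such
that Q1 holds exactly over `(Λ, P)`: if the logarithms `t₁, …, t_s` are `ℚ`-independent modulo `Λ` and the special points
`p₁, …, p_n` are `k`-independent modulo `P`, then `t₁, …, t_s, p₁, …, p_n` are algebraically independent over the field
generated by `Λ` and `P`. Q1 holds for the lattice if and only if `Λ = 0` and `P = 0`.

## The proof (in `Pool.Agent.Q280.ML`)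

`dim Λ + dim P - trdeg ℚ(Λ, P)` is a supermodular function on the modular lattice of the pairs of finite dimensional
spaces. The pairs all of whose proper subpairs have a smaller value form a directed family, and the canonical pair is its
union. The function is also increasing, which makes it possible to pass from arbitrary pairs to the pairs spanned by
special points.
-/

set_option autoImplicit false

open Module
open scoped PeriodPair

namespace Pool.Agent.Results.MP_c9768e_nt.CanonicalPair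

open Pool.Agent.Y776.Et (ζ k trd)

/-- Question Q1 for the lattice `L`, with the error `C`: for all `t` and `p` as in the problem the transcendence degree
of the field generated by `t₁, …, t_s, p₁, …, p_n` is at least `s + n - C`. -/
def Q1UpTo (L : PeriodPair) (C : ℕ) : Prop :=
  ∀ s m n : ℕ, m ≤ n → ∀ (t : Fin s → ℂ) (p : Fin n → ℂ), LinearIndependent ℚ t →
    (∀ l, IsAlgebraic ℚ (Complex.exp (t l))) → (∀ i, p i ∉ L.lattice) → LinearIndependent (k L) p →
    (∀ i : Fin n, (i : ℕ) < m → IsAlgebraic ℚ (℘[L] (p i))) → (∀ i : Fin n, m ≤ (i : ℕ) → IsAlgebraic ℚ (ζ L (p i))) →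
    ((s + n : ℕ) : Cardinal) ≤ trd ℚ (Set.range t ∪ Set.range p) + C

/-- Question Q1 for the lattice `L`: for all `t` and `p` as in the problem the numbers `t₁, …, t_s, p₁, …, p_n` are
algebraically independent. -/
def Q1 (L : PeriodPair) : Prop :=
  ∀ s m n : ℕ, m ≤ n → ∀ (t : Fin s → ℂ) (p : Fin n → ℂ), LinearIndependent ℚ t →
    (∀ l, IsAlgebraic ℚ (Complex.exp (t l))) → (∀ i, p i ∉ L.lattice) → LinearIndependent (k L) p →
    (∀ i : Fin n, (i : ℕ) < m → IsAlgebraic ℚ (℘[L] (p i))) → (∀ i : Fin n, m ≤ (i : ℕ) → IsAlgebraic ℚ (ζ L (p i))) →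
    AlgebraicIndependent ℚ (Sum.elim t p)

/-- the points `p ∉ Ω` such that `℘(p)` or `ζ(p)` is algebraic -/
def SpecialPoint (L : PeriodPair) (p : ℂ) : Prop :=
  p ∉ L.lattice ∧ (IsAlgebraic ℚ (℘[L] p) ∨ IsAlgebraic ℚ (ζ L p))

/-- `Λ` consists of logarithms of algebraic numbers and `P` of linear combinations of special points -/
def IsPair (L : PeriodPair) (Λ : Submodule ℚ ℂ) (P : Submodule (k L) ℂ) : Prop :=
  (∀ t ∈ Λ, IsAlgebraic ℚ (Complex.exp t)) ∧ P ≤ Submodule.span (k L) {p | SpecialPoint L p}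

/-- Q1 holds exactly over the pair `(Λ, P)`: if `t₁, …, t_s` are logarithms of algebraic numbers, `ℚ`-independent modulo
`Λ`, and `p₁, …, p_n` are special points, `k`-independent modulo `P`, then `t₁, …, t_s, p₁, …, p_n` are algebraically
independent over the field generated by `Λ` and `P`. -/
def ExactOver (L : PeriodPair) (Λ : Submodule ℚ ℂ) (P : Submodule (k L) ℂ) : Prop :=
  ∀ (s n : ℕ) (t : Fin s → ℂ) (p : Fin n → ℂ), (∀ l, IsAlgebraic ℚ (Complex.exp (t l))) → (∀ i, SpecialPoint L (p i)) →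
    LinearIndependent ℚ (fun l => Λ.mkQ (t l)) → LinearIndependent (k L) (fun i => P.mkQ (p i)) →
    AlgebraicIndependent (IntermediateField.adjoin ℚ ((Λ : Set ℂ) ∪ (P : Set ℂ))) (Sum.elim t p)

/-- the defect of a pair of finite dimensional spaces -/
noncomputable def defect (L : PeriodPair) (Λ : Submodule ℚ ℂ) (P : Submodule (k L) ℂ) : ℤ :=
  (finrank ℚ Λ : ℤ) + (finrank (k L) P : ℤ) - ((trd ℚ ((Λ : Set ℂ) ∪ (P : Set ℂ))).toNat : ℤ)

/-- a pair of finite dimensional spaces all of whose proper subpairs have a smaller defect -/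
def Tight (L : PeriodPair) (Λ : Submodule ℚ ℂ) (P : Submodule (k L) ℂ) : Prop :=
  (IsPair L Λ P ∧ FiniteDimensional ℚ Λ ∧ FiniteDimensional (k L) P) ∧
    ∀ Λ' P', (Λ' ≤ Λ ∧ P' ≤ P) → ¬ (Λ' = Λ ∧ P' = P) → defect L Λ' P' < defect L Λ P

section

open Pool.Agent.Q280.ML

variable {L : PeriodPair}

theorem defect_eq {Λ : Submodule ℚ ℂ} {P : Submodule (k L) ℂ} (h1 : FiniteDimensional ℚ Λ)
    (h2 : FiniteDimensional (k L) P) : defect L Λ P = Us.LSys.dfc (A := SSys L) (Λ, P) := by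
  have h3 : (trd ℚ ((Λ : Set ℂ) ∪ (P : Set ℂ))).toNat = (Q241.SX.M.eRk (SS ((Λ, P) : Pr L))).toNat :=
    Pool.Agent.Q280.SD.trdeg_adjoin (SS ((Λ, P) : Pr L)) (SS_rk h1 h2)
  unfold defect Us.LSys.dfc Us.LSys.rk
  rw [h3]
  change _ = ((finrank ℚ Λ + finrank (k L) P : ℕ) : ℤ) - ((Q241.SX.M.eRk (SS ((Λ, P) : Pr L))).toNat : ℤ)
  push_cast
  ring

theorem tight_iff {Λ : Submodule ℚ ℂ} {P : Submodule (k L) ℂ} : Tight L Λ P ↔ finS ((Λ, P) : Pr L) ∧
    ∀ W : Pr L, ⊥ ≤ W → W < (Λ, P) → Us.LSys.dfc (A := SSys L) W < Us.LSys.dfc (A := SSys L) (Λ, P) := by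
  unfold Tight
  refine and_congr_right fun hV => ?_
  constructor
  · rintro h ⟨Λ', P'⟩ - h2
    have h3 := h Λ' P' ⟨h2.le.1, h2.le.2⟩ (fun h => h2.ne (Prod.ext h.1 h.2))
    rw [defect_eq hV.2.1 hV.2.2, defect_eq (fd_le hV.2.1 h2.le.1) (fd_le hV.2.2 h2.le.2)] at h3
    exact h3
  · rintro h Λ' P' h3 h4
    have h5 := h (Λ', P') bot_le (lt_of_le_of_ne ⟨h3.1, h3.2⟩ (fun h => h4 ⟨congrArg Prod.fst h, congrArg Prod.snd h⟩))
    rw [defect_eq hV.2.1 hV.2.2, defect_eq (fd_le hV.2.1 h3.1) (fd_le hV.2.2 h3.2)]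
    exact h5

theorem rank_ai {ι : Type} [Fintype ι] {v : ι → ℂ} (h : AlgebraicIndependent ℚ v) {X : Set ℂ}
    (hX : ∀ i, v i ∈ X) : ((Fintype.card ι : ℕ) : ℕ∞) ≤ Q241.SX.M.eRk X := by
  have h3 : Q241.SX.M.Indep (Set.range v) := by
    rw [AlgebraicIndependent.matroid_indep_iff]
    exact h.coe_range
  have h4 := h3.encard_le_eRk_of_subset (show Set.range v ⊆ X by
    rintro _ ⟨i, rfl⟩
    exact hX i)
  have h5 : (Set.range v).encard = ((Fintype.card ι : ℕ) : ℕ∞) := by
    rw [← Set.image_univ, h.injective.encard_image, Set.encard_univ, ENat.card_eq_coe_fintype_card]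
  rwa [h5] at h4

theorem trd_eq {S : Set ℂ} (hS : S.Finite) : ∃ r : ℕ, Q241.SX.M.eRk S = (r : ℕ∞) ∧ trd ℚ S = (r : Cardinal) := by
  have h1 : Q241.SX.M.eRk S < ⊤ := (Q241.SX.M.eRk_le_encard S).trans_lt hS.encard_lt_top
  obtain ⟨s, hs⟩ := ENat.ne_top_iff_exists.1 h1.ne
  refine ⟨s, hs.symm, ?_⟩
  have h2 := Pool.Agent.TH813.Rel.toENat_trdeg (k := ℚ) S
  change Cardinal.toENat (trd ℚ S) = Q241.SX.M.eRk S at h2
  rw [← hs] at h2
  exact Cardinal.toENat_eq_natCast.mp h2

/-- a pair is contained in a pair spanned by points as in the problem -/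
theorem exists_data {V : Pr L} (hV : finS V) : ∃ (s m n : ℕ) (t : Fin s → ℂ) (p : Fin n → ℂ), m ≤ n ∧
    LinearIndependent ℚ t ∧ (∀ l, IsAlgebraic ℚ (Complex.exp (t l))) ∧ (∀ i, p i ∉ L.lattice) ∧
    LinearIndependent (k L) p ∧ (∀ i : Fin n, (i : ℕ) < m → IsAlgebraic ℚ (℘[L] (p i))) ∧
    (∀ i : Fin n, m ≤ (i : ℕ) → IsAlgebraic ℚ (ζ L (p i))) ∧
    V ≤ (Submodule.span ℚ (Set.range t), Submodule.span (k L) (Set.range p)) := by
  have f1 := hV.2.1
  obtain ⟨G, hG1, hG2, hG3⟩ := exists_special hV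
  obtain ⟨n, p, p1, p2, p3⟩ := exists_mod_basis (K := k L) hG1 (⊥ : Submodule (k L) ℂ)
  obtain ⟨t, t1, t2, t3⟩ := exists_basis_Q V.1
  obtain ⟨σ, m, m1, m2, m3⟩ := exists_order p fun i => hG2 _ (p1 i)
  have hp : LinearIndependent (k L) p := li_of_mod p2
  refine ⟨_, m, n, t, p ∘ σ, m1, t1, fun l => hV.1.1 (t2 l), fun i => (hG2 _ (p1 (σ i))).1, hp.comp σ σ.injective,
    m2, m3, ⟨t3.ge, ?_⟩⟩
  change V.2 ≤ Submodule.span (k L) (Set.range (p ∘ σ))
  rw [σ.surjective.range_comp]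
  have h1 : Submodule.span (k L) (Set.range p) = Submodule.span (k L) G := by
    have fG : FiniteDimensional (k L) (Submodule.span (k L) G) := fd_span hG1
    refine Submodule.eq_of_le_of_finrank_eq (Submodule.span_mono ?_) ?_
    · rintro _ ⟨i, rfl⟩
      exact p1 i
    · rw [finrank_span_eq_card hp, Fintype.card_fin]
      have h2 : (Submodule.span (k L) G ⊓ ⊥ : Submodule (k L) ℂ) = ⊥ := inf_bot_eq _
      rw [h2, finrank_bot, zero_add] at p3
      exact p3.symm
  rw [h1]
  exact hG3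

theorem span_data {s n : ℕ} {t : Fin s → ℂ} {p : Fin n → ℂ} (ht : LinearIndependent ℚ t)
    (ht' : ∀ l, IsAlgebraic ℚ (Complex.exp (t l))) (hp : LinearIndependent (k L) p) (hp' : ∀ i, SpecialPoint L (p i)) :
    finS ((Submodule.span ℚ (Set.range t), Submodule.span (k L) (Set.range p)) : Pr L) ∧
      wS ((Submodule.span ℚ (Set.range t), Submodule.span (k L) (Set.range p)) : Pr L) = s + n := by
  refine ⟨⟨⟨?_, ?_⟩, fd_span (Set.finite_range _), fd_span (Set.finite_range _)⟩, ?_⟩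
  · change Submodule.span ℚ (Set.range t) ≤ LogQ
    rw [Submodule.span_le]
    rintro _ ⟨i, rfl⟩
    exact ht' i
  · change Submodule.span (k L) (Set.range p) ≤ YY L
    refine Submodule.span_mono ?_
    rintro _ ⟨i, rfl⟩
    exact hp' i
  · change finrank ℚ (Submodule.span ℚ (Set.range t)) + finrank (k L) (Submodule.span (k L) (Set.range p)) = _
    rw [finrank_span_eq_card ht, finrank_span_eq_card hp, Fintype.card_fin, Fintype.card_fin]

theorem special_of {m n : ℕ} {p : Fin n → ℂ} (h1 : ∀ i, p i ∉ L.lattice)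
    (h2 : ∀ i : Fin n, (i : ℕ) < m → IsAlgebraic ℚ (℘[L] (p i)))
    (h3 : ∀ i : Fin n, m ≤ (i : ℕ) → IsAlgebraic ℚ (ζ L (p i))) (i : Fin n) : SpecialPoint L (p i) := by
  refine ⟨h1 i, ?_⟩
  rcases lt_or_ge (i : ℕ) m with h | h
  · exact Or.inl (h2 i h)
  · exact Or.inr (h3 i h)

theorem Q1_iff : Q1 L ↔ CS L = ⊥ := by
  constructor
  · intro h
    rw [CS_bot_iff]
    intro V hV
    obtain ⟨s, m, n, t, p, m1, t1, t2, p1, p2, p3, p4, hle⟩ := exists_data hV
    have h1 := h s m n m1 t p t1 t2 p1 p2 p3 p4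
    obtain ⟨h2, h3⟩ := span_data t1 t2 p2 (special_of p1 p3 p4)
    refine (dfcS_mono h2 hle).trans ?_
    have h4 := rank_ai h1 (X := SS ((Submodule.span ℚ (Set.range t), Submodule.span (k L) (Set.range p)) : Pr L)) (by
      rintro (i | i)
      · exact Or.inl (Submodule.subset_span ⟨i, rfl⟩)
      · exact Or.inr (Submodule.subset_span ⟨i, rfl⟩))
    have h5 := Us.LSys.coe_rk (A := SSys L) h2
    change _ = Q241.SX.M.eRk (SS _) at h5
    rw [← h5, Fintype.card_sum, Fintype.card_fin, Fintype.card_fin] at h4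
    have h6 : s + n ≤ Us.LSys.rk (A := SSys L)
      (Submodule.span ℚ (Set.range t), Submodule.span (k L) (Set.range p)) := by exact_mod_cast h4
    unfold Us.LSys.dfc
    change ((wS _ : ℕ) : ℤ) - _ ≤ 0
    rw [h3]
    omega
  · intro h s m n _ t p t1 t2 p1 p2 p3 p4
    have h1 := exact_CS (L := L) s n t p t2 (special_of p1 p3 p4)
      (by rw [h]; exact li_of_inf_bot t1 (inf_bot_eq _)) (by rw [h]; exact li_of_inf_bot p2 (inf_bot_eq _))
    exact h1.restrictScalars (FaithfulSMul.algebraMap_injective ℚ _)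

theorem upTo_iff (C : ℕ) : Q1UpTo L C ↔ (FiniteDimensional ℚ (CS L).1 ∧ FiniteDimensional (k L) (CS L).2) ∧
    Us.LSys.dfc (A := SSys L) (CS L) ≤ C := by
  have key : Q1UpTo L C ↔ ∀ V : Pr L, finS V → Us.LSys.dfc (A := SSys L) V ≤ C := by
    constructor
    · intro h V hV
      obtain ⟨s, m, n, t, p, m1, t1, t2, p1, p2, p3, p4, hle⟩ := exists_data hV
      have h1 := h s m n m1 t p t1 t2 p1 p2 p3 p4
      obtain ⟨h2, h3⟩ := span_data t1 t2 p2 (special_of p1 p3 p4)
      refine (dfcS_mono h2 hle).trans ?_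
      obtain ⟨r, r1, r2⟩ := trd_eq ((Set.finite_range t).union (Set.finite_range p))
      rw [r2] at h1
      have h4 : s + n ≤ r + C := by exact_mod_cast h1
      have h5 : (r : ℕ∞) ≤ Q241.SX.M.eRk
          (SS ((Submodule.span ℚ (Set.range t), Submodule.span (k L) (Set.range p)) : Pr L)) := by
        rw [← r1]
        exact Q241.SX.M.eRk_mono (Set.union_subset_union Submodule.subset_span Submodule.subset_span)
      have h6 := Us.LSys.coe_rk (A := SSys L) h2
      change _ = Q241.SX.M.eRk (SS _) at h6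
      rw [← h6] at h5
      have h7 : r ≤ Us.LSys.rk (A := SSys L)
        (Submodule.span ℚ (Set.range t), Submodule.span (k L) (Set.range p)) := by exact_mod_cast h5
      unfold Us.LSys.dfc
      change ((wS _ : ℕ) : ℤ) - _ ≤ _
      rw [h3]
      omega
    · intro h s m n _ t p t1 t2 p1 p2 p3 p4
      obtain ⟨h2, h3⟩ := span_data t1 t2 p2 (special_of p1 p3 p4)
      have h1 := h _ h2
      obtain ⟨r, r1, r2⟩ := trd_eq ((Set.finite_range t).union (Set.finite_range p))
      rw [r2]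
      have h5 : Q241.SX.M.eRk
          (SS ((Submodule.span ℚ (Set.range t), Submodule.span (k L) (Set.range p)) : Pr L)) ≤ (r : ℕ∞) := by
        rw [← r1, ← Q241.SX.M.eRk_closure_eq (Set.range t ∪ Set.range p)]
        exact Q241.SX.M.eRk_mono (SS_span t p)
      have h6 := Us.LSys.coe_rk (A := SSys L) h2
      change _ = Q241.SX.M.eRk (SS _) at h6
      rw [← h6] at h5
      have h7 : Us.LSys.rk (A := SSys L)
        (Submodule.span ℚ (Set.range t), Submodule.span (k L) (Set.range p)) ≤ r := by exact_mod_cast h5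
      unfold Us.LSys.dfc at h1
      change ((wS _ : ℕ) : ℤ) - _ ≤ _ at h1
      rw [h3] at h1
      have h8 : s + n ≤ r + C := by omega
      exact_mod_cast h8
  rw [key]
  constructor
  · intro h
    have h1 : finS (CS L) := CS_fin_iff.mpr ⟨C, h⟩
    exact ⟨h1.2, h _ h1⟩
  · rintro ⟨h1, h2⟩ V hV
    exact (Bs.le_core (Us.LSys.sm (A := SSys L)) (V := V) ⟨CS_le_top, h1⟩ hV).trans h2

end

/-- **Main result.** For every lattice `L` there is a pair `(Λ, P)` of a `ℚ`-space of logarithms of algebraic numbers and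
a `k`-space of linear combinations of special points with the following properties.

(1) Q1 holds exactly over `(Λ, P)`, and `(Λ, P)` is contained in every such pair.
(2) It is the union of the pairs of finite dimensional spaces all of whose proper subpairs have a smaller defect.
(3) The defect of a pair `(Λ', P')` of finite dimensional spaces is at most the defect of `(Λ' ∩ Λ, P' ∩ P)`.
(4) Q1 holds for `L` if and only if `Λ = 0` and `P = 0`.
(5) Q1 holds for `L` with the error `C` if and only if `Λ` and `P` are finite dimensional and the defect of `(Λ, P)` is at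
most `C`.
(6) If the lattice is stable under complex conjugation then so are `Λ` and `P`. -/
theorem result : ∀ L : PeriodPair, ∃ (Λ : Submodule ℚ ℂ) (P : Submodule (k L) ℂ), IsPair L Λ P ∧
    (ExactOver L Λ P ∧ ∀ Λ' P', IsPair L Λ' P' → ExactOver L Λ' P' → Λ ≤ Λ' ∧ P ≤ P') ∧
    (∀ t p, (t ∈ Λ ∧ p ∈ P) ↔ ∃ Λ' P', Tight L Λ' P' ∧ t ∈ Λ' ∧ p ∈ P') ∧
    (∀ Λ' P', IsPair L Λ' P' → FiniteDimensional ℚ Λ' → FiniteDimensional (k L) P' →
      defect L Λ' P' ≤ defect L (Λ' ⊓ Λ) (P' ⊓ P)) ∧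
    (Q1 L ↔ Λ = ⊥ ∧ P = ⊥) ∧
    (∀ C : ℕ, Q1UpTo L C ↔ (FiniteDimensional ℚ Λ ∧ FiniteDimensional (k L) P) ∧ defect L Λ P ≤ C) ∧
    ((∀ w ∈ L.lattice, (starRingEnd ℂ) w ∈ L.lattice) →
      (∀ t ∈ Λ, (starRingEnd ℂ) t ∈ Λ) ∧ ∀ p ∈ P, (starRingEnd ℂ) p ∈ P) := by
  open Pool.Agent.Q280.ML in
  intro L
  refine ⟨(CS L).1, (CS L).2, CS_le_top, ⟨exact_CS, fun Λ' P' h1 h2 => ?_⟩, fun t p => ?_, fun Λ' P' h1 h2 h3 => ?_,
    ?_, fun C => ?_, fun hL => ⟨fun t ht => mem_barQ.mp ((conj_CS hL).1 ht), fun p hp => ((conj_CS hL).2 hp)⟩⟩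
  · have h3 : CS L ≤ (Λ', P') := CS_le h1 h2
    exact ⟨h3.1, h3.2⟩
  · constructor
    · rintro ⟨ht, hp⟩
      have h1 : ((Submodule.span ℚ {t}, Submodule.span (k L) {p}) : Pr L) ≤ CS L :=
        ⟨(Submodule.span_singleton_le_iff_mem _ _).mpr ht, (Submodule.span_singleton_le_iff_mem _ _).mpr hp⟩
      obtain ⟨T, h2, h3⟩ := Bs.exists_tight_ge (Us.LSys.sm (A := SSys L))
        (a := ((Submodule.span ℚ {t}, Submodule.span (k L) {p}) : Pr L))
        ⟨h1.trans CS_le_top, fd_span (Set.finite_singleton t), fd_span (Set.finite_singleton p)⟩ h1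
      exact ⟨T.1, T.2, tight_iff.mpr h2, h3.1 (Submodule.mem_span_singleton_self t),
        h3.2 (Submodule.mem_span_singleton_self p)⟩
    · rintro ⟨Λ', P', h1, h2, h3⟩
      have h5 : ((Λ', P') : Pr L) ≤ CS L := Bs.Tight.le_core (X := (SSys L).X) (T := (Λ', P')) (tight_iff.mp h1)
      exact ⟨h5.1 h2, h5.2 h3⟩
  · rw [defect_eq h2 h3, defect_eq (fd_le h2 inf_le_left) (fd_le h3 inf_le_left)]
    exact conc_CS (Λ', P') ⟨h1, h2, h3⟩
  · rw [Q1_iff]
    exact ⟨fun h => ⟨congrArg Prod.fst h, congrArg Prod.snd h⟩, fun h => Prod.ext h.1 h.2⟩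
  · rw [upTo_iff]
    refine and_congr_right fun hf => ?_
    rw [defect_eq hf.1 hf.2]

end Pool.Agent.Results.MP_c9768e_nt.CanonicalPair
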