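import Pool.Agent.Q138.PS.VI
import Pool.Agent.Results.MP_c9768e_nt.AlgebraicWindows

/-!
# Elliptic logarithms, quasi-logarithms and logarithms of tuples of algebraic numbers `± t_i + γ`, `t_i` close to `α P(n)`

Let `q ≥ 2`, let `Λ_i`, `i ∈ ι`, be countably many lattices with rational invariants and let `𝒞` be a countable set of complex
numbers. Outside a set of real numbers of Hausdorff dimension at most `q / (q + 1 / (q 2 ^ (q - 1)))` (that is `8 / 9` for `q = 2`)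
every `α > 0` has the following property. There is `η > 0` such that for ALL `i`, ALL `w_1, …, w_τ` in `𝒞`, ALL `r`, `δ`, `d`, ALL
algebraic numbers `γ` and both signs `ε` there is `κ > 0` such that for all large `N` and ALL integral polynomials `P` of degree
`q` with positive leading coefficient and coefficients of size at most `N ^ η`: for all but `N ^ (1 - κ)` of the `n ≤ N`, for ALL
`r`-tuples of distinct integers `t_j` with `|t_j - ⌊α P(n)⌋| ≤ N ^ κ` and ALL `p_j`, `l_j` with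
`℘(p_j) = exp(l_j) = ε t_j + γ`, every relation of degree at most `δ` over a number field of degree at most `d` between `w`, the
periods and the `3 r` numbers `p_j`, `ζ(p_j)`, `l_j` becomes trivial after the substitution of `w` and the periods.
-/

set_option autoImplicit false

open scoped PeriodPair

namespace Pool.Agent.Results.MP_c9768e_nt.LogarithmsAlongRealMultiples

open Finset Filter Topology
open Pool.Agent.Q138.PS
open AlgebraicWindows (zeta periods)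

/-- For all `r`-tuples of distinct points `x` of `S` and all `p_j`, `l_j` with `℘(p_j) = exp(l_j) = x_j` every polynomial of
degree at most `δ` over a number field of degree at most `d` which vanishes at `w`, the periods and the `p_j`, `ζ(p_j)`, `l_j`
is zero after the substitution of `w` and the periods. -/
def AllFree (L : PeriodPair) (r δ d : ℕ) {τ : ℕ} (w : Fin τ → ℂ) (S : Set ℂ) : Prop :=
  ∀ x : Fin r → ℂ, Function.Injective x → (∀ i, x i ∈ S) →
    ∀ p l : Fin r → ℂ, (∀ i, p i ∉ L.lattice ∧ ℘[L] (p i) = x i ∧ Complex.exp (l i) = x i) →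
    ∀ K : IntermediateField ℚ ℂ, FiniteDimensional ℚ K → Module.finrank ℚ K ≤ d →
    ∀ P : MvPolynomial ((Fin τ ⊕ Fin 5) ⊕ Fin r × Fin 3) K, P.totalDegree ≤ δ →
      MvPolynomial.aeval (Sum.elim (Sum.elim w (periods L))
        fun x => (![p x.1, zeta L (p x.1), l x.1] : Fin 3 → ℂ) x.2) P = 0 →
      MvPolynomial.aeval (Sum.elim (fun j => MvPolynomial.C (Sum.elim w (periods L) j)) MvPolynomial.X) P
        = (0 : MvPolynomial (Fin r × Fin 3) ℂ)

theorem winC (L : PeriodPair) (hL : ∃ a b : ℚ, L.g₂ = a ∧ L.g₃ = b) (r δ d : ℕ) {τ : ℕ} (w : Fin τ → ℂ) :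
    WinC (AllFree L r δ d w) := by
  obtain ⟨a, b, ha, hb⟩ := hL
  intro m A
  obtain ⟨ρ, hρ⟩ := trdeg_nat (Set.range (periods L)) (Set.finite_range _)
  obtain ⟨E, hE⟩ := AlgebraicWindows.result L a b ha hb r m A d δ τ
  refine ⟨E, τ + 1 + ρ, fun H ξ hξ hp => ?_⟩
  obtain ⟨S, hS, h⟩ := hE H ξ hξ hp w
  rw [hρ] at hS
  refine ⟨S, by exact_mod_cast hS, ?_⟩
  intro x hx hxS p l hpl
  choose g hg1 hg2 hg3 hg4 using hxS
  refine h g (fun i j hij => hx (by rw [hg4 i, hg4 j, hij])) (fun i => ⟨hg1 i, hg2 i, hg3 i⟩) p l fun i => ?_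
  rw [← hg4 i]
  exact hpl i

/-- **Theorem.** -/
theorem result (q : ℕ) (hq : 2 ≤ q) {ι : Type} [Countable ι] (Λ : ι → PeriodPair)
    (hΛ : ∀ i, ∃ a b : ℚ, (Λ i).g₂ = a ∧ (Λ i).g₃ = b) (𝒞 : Set ℂ) (h𝒞 : 𝒞.Countable) :
    ∃ E : Set ℝ, dimH E ≤ ENNReal.ofReal (q / (q + 1 / ((q : ℝ) * 2 ^ (q - 1)))) ∧ ∀ α : ℝ, 0 < α → α ∉ E →
      ∃ η : ℝ, 0 < η ∧ ∀ (i : ι) (τ : ℕ) (w : Fin τ → ℂ), (∀ j, w j ∈ 𝒞) → ∀ r δ d : ℕ, ∀ γ : ℂ, IsAlgebraic ℚ γ →
      ∀ ε : ℤ, ε = 1 ∨ ε = -1 →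
      ∃ κ : ℝ, 0 < κ ∧ ∀ᶠ N : ℕ in atTop, ∀ P : Polynomial ℤ, P.natDegree = q → 0 < P.leadingCoeff →
        (∀ j, |((P.coeff j : ℤ) : ℝ)| ≤ (N : ℝ) ^ η) →
        (badG (fun S => AllFree (Λ i) r δ d w ((fun t : ℕ => (ε : ℂ) * t + γ) '' S)) ⌊(N : ℝ) ^ κ⌋₊ α P N : ℝ) ≤
          (N : ℝ) ^ (1 - κ) := by
  classical
  have hC : Countable {x : ℂ // x ∈ 𝒞} := h𝒞.to_subtype
  obtain ⟨E, hE, hg⟩ := win_alg (ι := ι × (ℕ × ℕ × ℕ) × (Σ τ : ℕ, Fin τ → {x : ℂ // x ∈ 𝒞})) q hq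
    (fun i => AllFree (Λ i.1) i.2.1.1 i.2.1.2.1 i.2.1.2.2 (fun j => (i.2.2.2 j : ℂ)))
    (fun i S S' hS h x hx hxS => h x hx fun j => hS (hxS j))
    (fun i => winC _ (hΛ i.1) _ _ _ _)
  refine ⟨E, hE, fun α hα hαE => ?_⟩
  obtain ⟨η, hη, h1⟩ := hg α hα hαE
  refine ⟨η, hη, fun i τ w hw r δ d γ hγ ε hε => ?_⟩
  exact h1 (i, (r, δ, d), ⟨τ, fun j => ⟨w j, hw j⟩⟩) γ hγ ε hε

end Pool.Agent.Results.MP_c9768e_nt.LogarithmsAlongRealMultiples
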