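import Pool.Agent.Q246.NR2.Prop2
import Pool.Agent.Q246.NR2.EllLink

/-!
# Logarithms and elliptic logarithms of almost all tuples of algebraic points: independence with a measure

Let `L` be a lattice with rational invariants `g₂`, `g₃`.  The conjecture says that logarithms `t_l` of algebraic numbers
and numbers `p_i` with algebraic `℘(p_i)` are algebraically independent if the former and the latter are linearly
independent.

Let `p(α)` and `l(α)` be arbitrary fixed choices of the solutions of `℘(p(α)) = α`, `exp(l(α)) = α`, and `θ_1, …, θ_r`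
distinct natural numbers.  We consider the `2 k r` numbers `l(α_i + θ_j)`, `p(α_i + θ_j)` for the `k`-tuples of algebraic
integers `α_i` of degree at most `m` all of whose conjugates are at most `T` in absolute value.  There are `B` and `c > 0`
such that, for all but a proportion `O(T ^ (-c))` of the tuples `α`, the inequality `|P(…)| ≥ H ^ (-B)` holds for all
nonzero integer polynomials `P` of degree at most `d` and height at most `H` in these `2 k r` numbers,

* for all `H` in a long interval from `H₁` to `H₁ ^ exp (T ^ c)`, for any sufficiently large `H₁`;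
* for a set of `H` of upper density at least `1 - T ^ (-c)` on the doubly logarithmic scale; in particular for
  arbitrarily large `H`, with an exceptional set of tuples which does not depend on `H`.

The same holds relative to arbitrary complex constants `ζ₁, ..., ζ_g`, for instance `π`, the periods of `L` and further
logarithms, uniformly in `ζ`: `|P(ζ, …)| ≥ H ^ (-B) |P_e(ζ)|` for all coefficients `P_e(ζ)` of `P(ζ, X)`.

Proof (modules `Pool.Agent.Q246.NR`, `Pool.Agent.Q246.NR2`).  (1) For points `ξ + g` with `ξ` in a number field of degree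
at most `m` and `1 ≤ g ≤ h`, `(h + 2) ^ E ≤ |ξ|`, the numbers `log (1 + g / ξ)` and, up to periods, the elliptic integrals
divided by `ξ ^ (-1/2)` are values of G-functions at the small point `1 / ξ`.  A quantitative form, for near relations
of arbitrary height, of the theorem of Chudnovsky and Galochkin gives a lower bound for the values of all polynomials of
bounded degree and arbitrary height in several such values, with an exponent which does not depend on the window.
(2) If more points of a window satisfy near relations whose coefficients are integer combinations of the same constants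
(which include `log ξ`, `2 π i`, the periods and `ξ ^ (1/2)`), the constants are eliminated one after the other; this
contradicts (1).  So a window contains a bounded number of exceptional points, for each `H`.  (3) Induction on `k`,
where the numbers belonging to `α₂, ..., α_k` are treated as constants.  (4) A double counting over the heights
`2 ^ (2 ^ j)`.
-/

set_option autoImplicit false

open scoped PeriodPair

namespace Pool.Agent.Results.MP_c9768e_nt.MeasureAlmostAllTuples

/-- the algebraic integers of degree at most `m` all of whose conjugates have absolute value at most `T` -/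
def Ints (m T : ℕ) : Set ℂ :=
  {α | IsIntegral ℤ α ∧ (minpoly ℚ α).natDegree ≤ m ∧ ∀ z : ℂ, Polynomial.aeval z (minpoly ℚ α) = 0 → ‖z‖ ≤ T}

/-- `P = Σ P_e(Y) X ^ e` has degree at most `d` in `X`, its coefficients `P_e` have degree at most `d` in `Y`,
and the integer coefficients are at most `H` in absolute value -/
def Adm {σ : Type} {g : ℕ} (d : ℕ) (H : ℝ) (P : MvPolynomial σ (MvPolynomial (Fin g) ℤ)) : Prop :=
  P.totalDegree ≤ d ∧ ∀ e, (P.coeff e).totalDegree ≤ d ∧ ∀ f, |(((P.coeff e).coeff f : ℤ) : ℝ)| ≤ H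

/-- the value `P(ζ, w)` -/
noncomputable def val {σ : Type} {g : ℕ} (ζ : Fin g → ℂ) (w : σ → ℂ) (P : MvPolynomial σ (MvPolynomial (Fin g) ℤ)) :
    ℂ := MvPolynomial.eval₂ (MvPolynomial.aeval ζ).toRingHom w P

/-- the measure of algebraic independence of the numbers `w` for polynomials of degree at most `d` and height
at most `H`, also relative to the constants `ζ` -/
def Good {σ : Type} {g : ℕ} (d B : ℕ) (ζ : Fin g → ℂ) (w : σ → ℂ) (H : ℝ) : Prop :=
  (∀ P : MvPolynomial σ ℤ, P ≠ 0 → P.totalDegree ≤ d → (∀ e, |((P.coeff e : ℤ) : ℝ)| ≤ H) →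
    1 ≤ H ^ B * ‖MvPolynomial.aeval w P‖) ∧
  ∀ P : MvPolynomial σ (MvPolynomial (Fin g) ℤ), Adm d H P →
    ∀ e, ‖MvPolynomial.aeval ζ (P.coeff e)‖ ≤ H ^ B * ‖val ζ w P‖

/-- the `2 k r` numbers `l(α_i + θ_j)`, `p(α_i + θ_j)` -/
noncomputable def numbers (p l : ℂ → ℂ) {k r : ℕ} (θ : Fin r → ℕ) (α : Fin k → ℂ)
    (q : (Fin k × Fin r) × Fin 2) : ℂ :=
  ![l (α q.1.1 + θ q.1.2), p (α q.1.1 + θ q.1.2)] q.2

/-- Let `L` be a lattice with rational invariants, let `p(α)` be any solution of `℘(p(α)) = α`, and `l(α)` any logarithm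
of `α`.  For all `k`, `g`,
`d`, `m ≥ 1` and distinct `θ_1, …, θ_r ∈ ℕ` there are `B`, `C` and `c > 0` such that for all `T ≥ 1`: for all but a
proportion `C T ^ (-c)` of the tuples `α` of elements of `Ints m T` the measure with exponent `B` holds for the numbers
`l(α_i + θ_j)`, `p(α_i + θ_j)` for all `H` with `H₁ ≤ H ≤ H₁ ^ exp (T ^ c)`, for each large `H₁`; and, with one
exceptional set for all `H`, for a set of `H` of upper density at least `1 - T ^ (-c)` on the doubly logarithmic
scale; also relative to arbitrary constants. -/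
theorem result (L : PeriodPair) (a b : ℚ) (ha : L.g₂ = a) (hb : L.g₃ = b) (p l : ℂ → ℂ)
    (hp : ∀ α, p α ∉ L.lattice ∧ ℘[L] (p α) = α) (hl : ∀ α, α ≠ 0 → Complex.exp (l α) = α) (k g d m : ℕ) (hm : 1 ≤ m) {r : ℕ} (θ : Fin r → ℕ)
    (hθ : Function.Injective θ) :
    ∃ (B : ℕ) (C c : ℝ), 0 < c ∧ ∀ T : ℕ, 1 ≤ T →
    (∃ H₀ : ℝ, ∀ H₁ : ℝ, H₀ ≤ H₁ → ∀ ζ : Fin g → ℂ,
      (({α : Fin k → ℂ | (∀ i, α i ∈ Ints m T) ∧ ¬ ∀ H : ℝ, H₁ ≤ H → H ≤ H₁ ^ Real.exp ((T : ℝ) ^ c) →
        Good d B ζ (numbers p l θ α) H}.ncard : ℕ) : ℝ) ≤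
          C * (T : ℝ) ^ (-c) * (((Ints m T).ncard : ℕ) : ℝ) ^ k) ∧
    ∀ ζ : Fin g → ℂ, (({α : Fin k → ℂ | (∀ i, α i ∈ Ints m T) ∧ ¬ ∀ N₀ : ℕ, ∃ N, N₀ ≤ N ∧
      (({j : ℕ | j < N ∧ ¬ ∀ H : ℝ, 2 ^ (2 ^ j) ≤ H → H ≤ 2 ^ (2 ^ (j + 1)) →
        Good d B ζ (numbers p l θ α) H}.ncard : ℕ) : ℝ) ≤ (T : ℝ) ^ (-c) * N}.ncard : ℕ) : ℝ) ≤
          C * (T : ℝ) ^ (-c) * (((Ints m T).ncard : ℕ) : ℝ) ^ k := by
  classical
  obtain ⟨G, hG, hwin⟩ := Pool.Agent.Q246.NR2.win_ell a b L ha hb p l hl m θ hθ
  refine Pool.Agent.Q246.NR2.masterAll m hm _ _ (fun z j => hp _) (G : ℤ) (by exact_mod_cast (by omega : G ≠ 0)) hwin k g d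
    (fun B ζ α H => Good d B ζ (numbers p l θ α) H) (fun B ζ α H h => ?_)
  have hinj : Function.Injective (fun q : (Fin k × Fin r) × Fin 2 =>
      ((q.1.1, (q.1.2, (Pool.Agent.Y916.Sl.fe a b).symm ((![2, 0] : Fin 2 → Fin 3) q.2))) :
        Fin k × (Fin r × Pool.Agent.Y916.Sa.Tau (Pool.Agent.Y916.Sl.me a b)))) := by
    rintro ⟨⟨i, j⟩, q⟩ ⟨⟨i', j'⟩, q'⟩ h
    simp only [Prod.mk.injEq, EmbeddingLike.apply_eq_iff_eq] at h
    obtain ⟨rfl, rfl, h3⟩ := h
    have h4 : q = q' := by
      revert h3
      fin_cases q <;> fin_cases q' <;> simp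
    rw [h4]
  have h1 := h.rename _ hinj
  have h2 : (fun q : (Fin k × Fin r) × Fin 2 => Pool.Agent.Q246.NR2.yE a b L p l (α q.1.1 + θ q.1.2)
      ((Pool.Agent.Y916.Sl.fe a b).symm ((![2, 0] : Fin 2 → Fin 3) q.2))) = numbers p l θ α := by
    funext q
    rw [Pool.Agent.Q246.NR2.yE, Equiv.apply_symm_apply]
    obtain ⟨q1, q2⟩ := q
    fin_cases q2 <;> rfl
  rw [← h2]
  exact h1

end Pool.Agent.Results.MP_c9768e_nt.MeasureAlmostAllTuples
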